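import Mathlib
import Pool.Agent.H691R3.QStd

set_option autoImplicit false

namespace Pool.Agent.Results.MP_9ec3f0_nt.GraphsOfFunctions

open NumberField IsDedekindDomain Polynomial

/-- the logarithmic height, relative to `K`, of the point `[x : 1]` -/
noncomputable def height {K : Type} [Field K] [NumberField K] (x : K) : ℝ :=
  ∑ w : InfinitePlace K, (w.mult : ℝ) * Real.log (max (w x) (w 1)) +
    ∑ᶠ v : HeightOneSpectrum (RingOfIntegers K),
      Real.log (max (FinitePlace.mk v x) (FinitePlace.mk v 1))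

/-- degree of the rational function `P / Q` -/
def deg {K : Type} [Field K] (P Q : K[X]) : ℕ := max P.natDegree Q.natDegree

/-- the value at `([x : 1], [y : 1])` of the equation of the divisor `D`, the union of the
fibres `x = γ i`, `i ∈ A`, of the first projection and of the graphs `y = P k (x) / Q k (x)` -/
def equation {K : Type} [Field K] {g t : ℕ} (γ : Fin g → K × K) (A : Finset (Fin g))
    (P Q : Fin t → K[X]) (x y : K) : K :=
  (∏ i ∈ A, (x * (γ i).2 - 1 * (γ i).1)) *
    ∏ k, (y * (Q k).eval x - 1 * (P k).eval x)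

/-- the local height `-log (|F(s, t)| / (|s| ^ a * |t| ^ b))` at the prime `v` of the point
`([x : 1], [y : 1])`, for a divisor of bidegree `(a, b)` whose equation has the value `f` -/
noncomputable def localHeight {K : Type} [Field K] [NumberField K]
    (v : HeightOneSpectrum (RingOfIntegers K)) (a b : ℕ) (f x y : K) : ℝ :=
  -Real.log (FinitePlace.mk v f /
    (max (FinitePlace.mk v x) (FinitePlace.mk v 1) ^ a *
      max (FinitePlace.mk v y) (FinitePlace.mk v 1) ^ b))

/-- the truncated counting function: the sum over the primes `v` outside `T` of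
`min (λ_{D, v}) (log N v)` -/
noncomputable def counting {K : Type} [Field K] [NumberField K]
    (T : Set (HeightOneSpectrum (RingOfIntegers K))) {g t : ℕ} (γ : Fin g → K × K)
    (A : Finset (Fin g)) (P Q : Fin t → K[X]) (x y : K) : ℝ :=
  ∑ᶠ (v : HeightOneSpectrum (RingOfIntegers K)) (_ : v ∉ T),
    min (localHeight v (A.card + ∑ k, deg (P k) (Q k)) t (equation γ A P Q x y) x y)
      (Real.log (Ideal.absNorm v.asIdeal : ℝ))

/-- Let `K` be a number field and `D` the divisor on the product of two lines which is the union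
of the fibres `x = γ i` (`i ∈ A`) and of the graphs of `t ≥ 1` rational functions `P k / Q k`
over `K` of degree at most two (constants allowed). Suppose that `D` has normal crossings and
that all crossing points are rational: the two graphs `k ≠ l` meet over the `deg k + deg l`
different points `γ i`, `i ∈ S k l`, and there are no triple points.
Let `0 ≤ κ ≤ 2`, `c` real and `δ > 0`, and let `T` be a finite set of primes. Then, for `B ≥ 1`,
the number of `(x, y)` in `K ^ 2` off `D` with coordinates of height at most `log B` and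
`N^(1)(D, (x, y)) < (a - κ) h(x) + (b - κ) h(y) + c`, where `(a, b)` is the bidegree of `D`, is
`O(B ^ (max (2 (2 - κ)) (7 / 2) + δ))`. -/
theorem result :
    ∀ (K : Type) [Field K] [NumberField K]
      (T : Set (HeightOneSpectrum (RingOfIntegers K))), T.Finite →
      ∀ (g t : ℕ), 1 ≤ g → 1 ≤ t →
      ∀ (γ : Fin g → K × K), (∀ i, γ i ≠ 0) →
        (∀ i j, i ≠ j → (γ i).1 * (γ j).2 - (γ i).2 * (γ j).1 ≠ 0) →
      ∀ (A : Finset (Fin g)) (P Q : Fin t → K[X]), (∀ k, IsCoprime (P k) (Q k)) →
        (∀ k, deg (P k) (Q k) ≤ 2) →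
      ∀ (S : Fin t → Fin t → Finset (Fin g)) (u : Fin t → Fin t → K),
        (∀ k l, k ≠ l → u k l ≠ 0 ∧ (S k l).card = deg (P k) (Q k) + deg (P l) (Q l) ∧
          ∀ x : K, (P k).eval x * (Q l).eval x - (Q k).eval x * (P l).eval x =
            u k l * ∏ i ∈ S k l, (x * (γ i).2 - 1 * (γ i).1)) →
        (∀ k l, k ≠ l → Disjoint A (S k l)) →
        (∀ k l m, k ≠ l → k ≠ m → l ≠ m → Disjoint (S k m) (S l m)) →
      ∀ κ c δ : ℝ, 0 ≤ κ → κ ≤ 2 → 0 < δ →
        ∃ C : ℝ, ∀ B : ℝ, 1 ≤ B →
          {z : K × K | equation γ A P Q z.1 z.2 ≠ 0 ∧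
            height z.1 ≤ Real.log B ∧ height z.2 ≤ Real.log B ∧
            counting T γ A P Q z.1 z.2 <
              (((A.card + ∑ k, deg (P k) (Q k) : ℕ) : ℝ) - κ) * height z.1 +
              ((t : ℝ) - κ) * height z.2 + c}.Finite ∧
          ({z : K × K | equation γ A P Q z.1 z.2 ≠ 0 ∧
            height z.1 ≤ Real.log B ∧ height z.2 ≤ Real.log B ∧
            counting T γ A P Q z.1 z.2 <
              (((A.card + ∑ k, deg (P k) (Q k) : ℕ) : ℝ) - κ) * height z.1 +
              ((t : ℝ) - κ) * height z.2 + c}.ncard : ℝ) ≤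
            C * B ^ (max (2 * (2 - κ)) (7 / 2) + δ) := by
  intro K _ _ T hT g t hg ht γ hγ0 hγ A P Q hPQ hd2 S u hS hAS hSS κ c δ hκ0 hκ2 hδ
  classical
  have hheight : ∀ x : K, height x = Pool.Agent.H691R3.hr (Pool.Agent.H691R3.aff x) :=
    fun x => rfl
  have hcount : ∀ x y : K, counting T γ A P Q x y = Pool.Agent.H691R3.NSq T γ A P Q x y :=
    fun x y => rfl
  obtain ⟨C, hC, hmain⟩ := Pool.Agent.H691R3.qstd_count hg ht T hT γ hγ0 hγ A P Q hPQ hd2 S u hS
    hAS hSS κ hκ0 hκ2 c δ hδ
  refine ⟨C, fun B hB => ?_⟩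
  set V : Set (K × K) := {z : K × K | equation γ A P Q z.1 z.2 ≠ 0 ∧
    height z.1 ≤ Real.log B ∧ height z.2 ≤ Real.log B ∧
    counting T γ A P Q z.1 z.2 <
      (((A.card + ∑ k, deg (P k) (Q k) : ℕ) : ℝ) - κ) * height z.1 +
      ((t : ℝ) - κ) * height z.2 + c} with hV
  have hB0 : 0 < B := by linarith
  have hlogB : 0 ≤ Real.log B := Real.log_nonneg hB
  have hbound : ∀ E : Finset (K × K), (E : Set (K × K)) ⊆ V →
      (E.card : ℝ) ≤ C * B ^ (max (2 * (2 - κ)) (7 / 2) + δ) := by
    intro E hE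
    have h1 := hmain (Real.log B) hlogB E ?_
    · refine h1.trans (le_of_eq ?_)
      rw [Real.rpow_def_of_pos hB0, mul_comm (Real.log B)]
    · intro z hz
      have hzV := hE hz
      rw [hV, Set.mem_ofPred_eq] at hzV
      obtain ⟨h2, h3, h4, h5⟩ := hzV
      rw [hcount] at h5
      exact ⟨h2, h5, h3, h4⟩
  have hnn : 0 ≤ C * B ^ (max (2 * (2 - κ)) (7 / 2) + δ) := by positivity
  have hfin : V.Finite := by
    by_contra hinf
    obtain ⟨E, hEV, hEc⟩ := Set.Infinite.exists_subset_card_eq hinf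
      (⌊C * B ^ (max (2 * (2 - κ)) (7 / 2) + δ)⌋₊ + 1)
    have h1 := hbound E hEV
    have h2 := Nat.lt_floor_add_one (C * B ^ (max (2 * (2 - κ)) (7 / 2) + δ))
    rw [hEc] at h1
    push_cast at h1
    linarith
  refine ⟨hfin, ?_⟩
  rw [Set.ncard_eq_toFinset_card V hfin]
  exact hbound hfin.toFinset (by rw [Set.Finite.coe_toFinset])

end Pool.Agent.Results.MP_9ec3f0_nt.GraphsOfFunctions
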