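import Mathlib
import Pool.Agent.H57R3.VJ.L

/-!
For hyperplanes in general position in projective space over a number field, the truncated counting
function is at least `θ h - C` for every fixed `θ < r`, outside a set of rational points whose counting function
is smaller by a power than the number of all points. For `θ = r - n - 1` the inequality is Vojta's
inequality for the pair `(P^n, H_1 + ... + H_r)`.
-/

set_option autoImplicit false

open NumberField Height Finset LinearAlgebra.Projectivization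
open scoped Classical

namespace Pool.Agent.Results.MP_9ec3f0_nt.HyperplaneExceptions

open Pool.Agent.H57R3.VJ

/-- the exponent -/
noncomputable def expo (n r : ℕ) (θ : ℝ) : ℝ :=
  min (θ * (1 - ((r - n).choose (n + 1) : ℝ) / (r.choose (n + 1) : ℝ)))
    (((n : ℝ) + 1) * (1 - (n : ℝ) * ((r : ℝ) - θ) / ((r : ℝ) * ((r : ℝ) - 1))))

/-- the `K`-points of height at most `B` off the hyperplanes at which the truncated counting function is
at most `θ h + C` -/
def Exc {K : Type*} [Field K] [NumberField K] {n r : ℕ} (S : Finset (FinitePlace K))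
    (a : Fin r → Fin (n + 1) → K) (θ C B : ℝ) : Set (ℙ K (Fin (n + 1) → K)) :=
  {P | (∀ i, lin (a i) P.rep ≠ 0) ∧ P.mulHeight ≤ B ∧ N1 S a P.rep ≤ θ * Real.log P.mulHeight + C}

lemma choose_id (m k : ℕ) (hk : k ≤ m) :
    ((m + 2).choose (k + 2) : ℝ) * ((k : ℝ) + 2) * ((k : ℝ) + 1) = ((m : ℝ) + 2) * ((m : ℝ) + 1) * (m.choose k : ℝ) ∧
    (m.choose (k + 1) : ℝ) * ((k : ℝ) + 1) = (m.choose k : ℝ) * ((m : ℝ) - k) := by
  have h1 := Nat.add_one_mul_choose_eq (m + 1) (k + 1)
  have h2 := Nat.add_one_mul_choose_eq m k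
  have h3 := Nat.choose_succ_right_eq m k
  have h1' : ((m : ℝ) + 2) * ((m + 1).choose (k + 1) : ℝ) = ((m + 2).choose (k + 2) : ℝ) * ((k : ℝ) + 2) := by
    have : (((m + 1 + 1) * (m + 1).choose (k + 1) : ℕ) : ℝ) = (((m + 1 + 1).choose (k + 1 + 1) * (k + 1 + 1) : ℕ) : ℝ) := by
      exact_mod_cast h1
    push_cast at this
    have e1 : m + 1 + 1 = m + 2 := rfl
    have e2 : k + 1 + 1 = k + 2 := rfl
    rw [e1, e2] at this
    linear_combination this
  have h2' : ((m : ℝ) + 1) * (m.choose k : ℝ) = ((m + 1).choose (k + 1) : ℝ) * ((k : ℝ) + 1) := by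
    have : (((m + 1) * m.choose k : ℕ) : ℝ) = (((m + 1).choose (k + 1) * (k + 1) : ℕ) : ℝ) := by
      exact_mod_cast h2
    push_cast at this
    linear_combination this
  refine ⟨?_, ?_⟩
  · linear_combination (-((k : ℝ) + 1)) * h1' + (-((m : ℝ) + 2)) * h2'
  · have : ((m.choose (k + 1) * (k + 1) : ℕ) : ℝ) = ((m.choose k * (m - k) : ℕ) : ℝ) := by exact_mod_cast h3
    push_cast [Nat.cast_sub hk] at this
    exact this

theorem result (K : Type*) [Field K] [NumberField K] (n r : ℕ) (hn : 1 ≤ n) (hr : n + 1 ≤ r)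
    (a : Fin r → Fin (n + 1) → K)
    (ha : ∀ I : Finset (Fin r), I.card = n + 1 → LinearIndependent K (fun i : I => a i))
    (S : Finset (FinitePlace K)) (θ C δ : ℝ) (hθ : 0 ≤ θ) (hδ : 0 < δ) :
    (θ < r → expo n r θ < n + 1) ∧
    ∃ M : ℝ, ∀ B : ℝ, 1 ≤ B →
      (Exc S a θ C B).Finite ∧ ((Exc S a θ C B).ncard : ℝ) ≤ M * B ^ (expo n r θ + δ) := by
  have hr2 : (2 : ℝ) ≤ r := by
    have : 2 ≤ r := by omega
    exact_mod_cast this
  have hn1 : (1 : ℝ) ≤ n := by exact_mod_cast hn
  have hchpos : (0 : ℝ) < (r.choose (n + 1) : ℝ) := by exact_mod_cast Nat.choose_pos hr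
  refine ⟨fun hθr => ?_, ?_⟩
  · refine lt_of_le_of_lt (min_le_right _ _) ?_
    have h1 : 0 < (n : ℝ) * ((r : ℝ) - θ) / ((r : ℝ) * ((r : ℝ) - 1)) := by
      apply div_pos
      · apply mul_pos <;> linarith
      · apply mul_pos <;> linarith
    nlinarith
  · have hgen : ∀ α β : ℝ, 0 ≤ α → 0 ≤ β →
        (∀ t : ℕ, 1 ≤ t → t ≤ n → (r.choose (n + 1) : ℝ) - ((r - t).choose (n + 1) : ℝ) ≤ α + β * t) →
        expo n r θ = (α * θ + β * r) / (r.choose (n + 1) : ℝ) →
        ∃ M : ℝ, ∀ B : ℝ, 1 ≤ B →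
          (Exc S a θ C B).Finite ∧ ((Exc S a θ C B).ncard : ℝ) ≤ M * B ^ (expo n r θ + δ) := by
      intro α β hα hβ hg he
      obtain ⟨M, hM⟩ := count_main (K := K) (a := a) ha hr S θ C hθ hα hβ hg hδ
      refine ⟨M, fun B hB => ?_⟩
      apply fin_of_bdd
      intro F hF
      rw [he]
      apply hM B hB F
      intro P hP
      obtain ⟨g1, g2, g3⟩ := hF hP
      have e : P.mulHeight = mulHeight P.rep := by
        conv_lhs => rw [← P.mk_rep]
        rw [Projectivization.mulHeight_mk]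
      rw [e] at g2 g3
      exact ⟨g1, g2, g3⟩
    rcases min_choice (θ * (1 - ((r - n).choose (n + 1) : ℝ) / (r.choose (n + 1) : ℝ)))
      (((n : ℝ) + 1) * (1 - (n : ℝ) * ((r : ℝ) - θ) / ((r : ℝ) * ((r : ℝ) - 1)))) with hmin | hmin
    · apply hgen ((r.choose (n + 1) : ℝ) - ((r - n).choose (n + 1) : ℝ)) 0 ?_ le_rfl
        (fun t _ ht => major_one r n t ht)
      · unfold expo
        rw [hmin]
        field_simp
        ring
      · have h1 : (r - n).choose (n + 1) ≤ r.choose (n + 1) := Nat.choose_le_choose _ (by omega)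
        have h2 : ((r - n).choose (n + 1) : ℝ) ≤ (r.choose (n + 1) : ℝ) := by exact_mod_cast h1
        linarith
    · apply hgen ((r - 2).choose (n - 1) : ℝ) ((r - 2).choose n : ℝ) (Nat.cast_nonneg _) (Nat.cast_nonneg _)
        (fun t ht htn => major_two r n hn hr t ht htn)
      unfold expo
      rw [hmin]
      obtain ⟨m, rfl⟩ : ∃ m, r = m + 2 := ⟨r - 2, by omega⟩
      obtain ⟨k, rfl⟩ : ∃ k, n = k + 1 := ⟨n - 1, by omega⟩
      obtain ⟨h1, h2⟩ := choose_id m k (by omega)
      simp only [Nat.add_sub_cancel]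
      push_cast at hchpos hr2 ⊢
      have hm1 : ((m : ℝ) + 2) * ((m : ℝ) + 2 - 1) ≠ 0 := by
        apply mul_ne_zero
        · linarith
        · have : (0:ℝ) ≤ m := Nat.cast_nonneg m
          linarith
      have hk1 : ((k : ℝ) + 1) ≠ 0 := by positivity
      have hcne := hchpos.ne'
      have e1 : (m.choose (k + 1) : ℝ) = (m.choose k : ℝ) * ((m : ℝ) - k) / ((k : ℝ) + 1) := by
        rw [eq_div_iff hk1]; exact h2
      have e2 : (m.choose k : ℝ) = ((m + 2).choose (k + 2) : ℝ) * ((k : ℝ) + 2) * ((k : ℝ) + 1) /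
          (((m : ℝ) + 2) * ((m : ℝ) + 1)) := by
        rw [eq_div_iff (by positivity)]
        linear_combination -h1
      rw [e1, e2]
      have e3 : ((m : ℝ) + 2 - 1) = (m : ℝ) + 1 := by ring
      rw [e3]
      have hm2 : ((m : ℝ) + 2) ≠ 0 := by positivity
      have hm3 : ((m : ℝ) + 1) ≠ 0 := by positivity
      have hcne' : ((m + 2).choose (k + 2) : ℝ) ≠ 0 := hcne
      show _ = _ / ((m + 2).choose (k + 2) : ℝ)
      field_simp
      ring

end Pool.Agent.Results.MP_9ec3f0_nt.HyperplaneExceptions
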