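import Mathlib
import Pool.Agent.H691R3.NMain2

set_option autoImplicit false

namespace Pool.Agent.Results.MP_9ec3f0_nt.ProductFibres

open NumberField IsDedekindDomain

/-- the logarithmic height, relative to `K`, of the point `[x : 1]` -/
noncomputable def height {K : Type} [Field K] [NumberField K] (x : K) : ℝ :=
  ∑ w : InfinitePlace K, (w.mult : ℝ) * Real.log (max (w x) (w 1)) +
    ∑ᶠ v : HeightOneSpectrum (RingOfIntegers K),
      Real.log (max (FinitePlace.mk v x) (FinitePlace.mk v 1))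

/-- the local height at the prime `v` of the point `[x : 1]` with respect to the point
`[a.1 : a.2]` -/
noncomputable def localHeight {K : Type} [Field K] [NumberField K]
    (v : HeightOneSpectrum (RingOfIntegers K)) (a : K × K) (x : K) : ℝ :=
  Real.log
    (max (FinitePlace.mk v x) (FinitePlace.mk v 1) *
      max (FinitePlace.mk v a.1) (FinitePlace.mk v a.2) /
      FinitePlace.mk v (x * a.2 - 1 * a.1))

/-- the truncated counting function of `x = (x_1, …, x_n)`, in the product of `n` lines, with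
respect to the divisor `D` which is the union of the fibres `x_i = α i l`: the sum over the primes
`v` outside `T` of `min (log N v) (λ_{D, v}(x))`, where `λ_{D, v}(x) = ∑_{i, l} λ_v(α i l, x_i)` -/
noncomputable def counting {K : Type} [Field K] [NumberField K]
    (T : Set (HeightOneSpectrum (RingOfIntegers K))) {n : ℕ} {q : Fin n → ℕ}
    (α : (i : Fin n) → Fin (q i) → K × K) (x : Fin n → K) : ℝ :=
  ∑ᶠ (v : HeightOneSpectrum (RingOfIntegers K)) (_ : v ∉ T),
    min (∑ i, ∑ l : Fin (q i), localHeight v (α i l) (x i))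
      (Real.log (Ideal.absNorm v.asIdeal : ℝ))

/-- the exponent -/
noncomputable def exponent (n Q : ℕ) (κ : ℝ) : ℝ :=
  min (max ((2 - κ) * n) (2 * n - 4 / 5))
    (min ((2 - 4 * κ / (Q : ℝ) ^ 2) * n) (((Q : ℝ) - κ) * (1 - (1 - 2 / (Q : ℝ)) ^ n) * n))

/-- Let `K` be a number field, `T` a finite set of primes, `n ≥ 1` and `D` the divisor on the
product of `n` projective lines which is the union of `q i` different fibres `x_i = α i l` of
the `i`-th projection (`i = 1, …, n`), `1 ≤ q i ≤ Q`, so that `K + D` has degree `q i - 2` in the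
`i`-th coordinate. Let `0 ≤ κ ≤ 2`, `c` real and `δ > 0`. Then, for `B ≥ 1`, the number of
`x ∈ K ^ n` off `D` with all coordinates of height (relative to `K`) at most `log B` and
`N^(1)(D, x) < ∑ i, (q i - κ) h(x_i) + c` is `O(B ^ (exponent n Q κ + δ))`. -/
theorem result :
    ∀ (K : Type) [Field K] [NumberField K]
      (T : Set (HeightOneSpectrum (RingOfIntegers K))), T.Finite →
      ∀ (n : ℕ), 1 ≤ n → ∀ (q : Fin n → ℕ), (∀ i, 1 ≤ q i) →
      ∀ (Q : ℕ), 2 ≤ Q → (∀ i, q i ≤ Q) →
        ∀ (α : (i : Fin n) → Fin (q i) → K × K),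
        (∀ i l, α i l ≠ 0) →
        (∀ i, ∀ l j, l ≠ j → (α i l).1 * (α i j).2 - (α i l).2 * (α i j).1 ≠ 0) →
        ∀ κ c δ : ℝ, 0 ≤ κ → κ ≤ 2 → 0 < δ →
          ∃ C : ℝ, ∀ B : ℝ, 1 ≤ B →
            {x : Fin n → K | (∀ i, ∀ l, x i * (α i l).2 - 1 * (α i l).1 ≠ 0) ∧
              (∀ i, height (x i) ≤ Real.log B) ∧
              counting T α x < ∑ i, ((q i : ℝ) - κ) * height (x i) + c}.Finite ∧
            ({x : Fin n → K | (∀ i, ∀ l, x i * (α i l).2 - 1 * (α i l).1 ≠ 0) ∧
              (∀ i, height (x i) ≤ Real.log B) ∧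
              counting T α x < ∑ i, ((q i : ℝ) - κ) * height (x i) + c}.ncard : ℝ) ≤
              C * B ^ (exponent n Q κ + δ) := by
  intro K _ _ T hT n hn q hq Q hQ2 hqQ α hα0 hα κ c δ hκ0 hκ2 hδ
  classical
  have hheight : ∀ x : K, height x = Pool.Agent.H691R3.hr (Pool.Agent.H691R3.aff x) :=
    fun x => rfl
  have hcount : ∀ x : Fin n → K, counting T α x = Pool.Agent.H691R3.NTn T α x := fun x => rfl
  obtain ⟨C, hC, hmain⟩ := Pool.Agent.H691R3.ncount_all2 hn (fun i => hq i) Q hQ2 hqQ T hT α hα0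
    hα κ hκ0 hκ2 (max c 0) (le_max_right _ _) δ hδ
  refine ⟨C, fun B hB => ?_⟩
  set V : Set (Fin n → K) := {x : Fin n → K |
    (∀ i, ∀ l, x i * (α i l).2 - 1 * (α i l).1 ≠ 0) ∧
    (∀ i, height (x i) ≤ Real.log B) ∧
    counting T α x < ∑ i, ((q i : ℝ) - κ) * height (x i) + c} with hV
  have hB0 : 0 < B := by linarith
  have hlogB : 0 ≤ Real.log B := Real.log_nonneg hB
  have hbound : ∀ E : Finset (Fin n → K), (E : Set (Fin n → K)) ⊆ V →
      (E.card : ℝ) ≤ C * B ^ (exponent n Q κ + δ) := by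
    intro E hE
    have h1 := hmain (Real.log B) hlogB E ?_
    · refine h1.trans (le_of_eq ?_)
      rw [Real.rpow_def_of_pos hB0, mul_comm (Real.log B)]
      rfl
    · intro x hx
      have hxV := hE hx
      rw [hV, Set.mem_ofPred_eq] at hxV
      obtain ⟨h2, h3, h4⟩ := hxV
      refine ⟨fun i l => h2 i l, ?_, h3⟩
      rw [hcount] at h4
      exact h4.trans_le (add_le_add le_rfl (le_max_left _ _))
  have hnn : 0 ≤ C * B ^ (exponent n Q κ + δ) := by positivity
  have hfin : V.Finite := by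
    by_contra hinf
    obtain ⟨E, hEV, hEc⟩ := Set.Infinite.exists_subset_card_eq hinf
      (⌊C * B ^ (exponent n Q κ + δ)⌋₊ + 1)
    have h1 := hbound E hEV
    have h2 := Nat.lt_floor_add_one (C * B ^ (exponent n Q κ + δ))
    rw [hEc] at h1
    push_cast at h1
    linarith
  refine ⟨hfin, ?_⟩
  rw [Set.ncard_eq_toFinset_card V hfin]
  exact hbound hfin.toFinset (by rw [Set.Finite.coe_toFinset])

end Pool.Agent.Results.MP_9ec3f0_nt.ProductFibres
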